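import Mathlib

/-!
# Higher character congruences fail in `PSL(2, q)`, `q ≡ 3, 5 (mod 8)`, for `p = 2`, `m = 2`

For a finite field `F` with `q > 4` elements and `q ≡ 3` or `5` modulo `8`, the finite simple
group `PSL(2, F)` has no element of order `4`, so that the relation `∼₂` for `p = 2` is conjugacy.
On the other hand it contains a Klein four-group whose three involutions are conjugate, and this
forces `χ(1) - χ(t) ∈ 4ℤ` for every complex character `χ` and every involution `t` in it.
-/

namespace Pool.Agent.Results.MP_cfb286_al.KleinFourPSL2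

open Matrix Relation

/-- One elementary step of the relation `∼ₘ` (for the prime `p`): pass to a conjugate, or
multiply `g` by `h ^ (p ^ (m - 1))`, where `h` commutes with `g` and has order a power of `p`. -/
inductive Step {G : Type*} [Group G] (p m : ℕ) : G → G → Prop
  | conj (g x : G) : Step p m g (x * g * x⁻¹)
  | mul (g h : G) (hc : Commute g h) (hp : ∃ k : ℕ, orderOf h = p ^ k) :
      Step p m g (g * h ^ (p ^ (m - 1)))

/-- The relation `∼ₘ`: the smallest equivalence relation containing all elementary steps. -/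
def Sim {G : Type*} [Group G] (p m : ℕ) : G → G → Prop := EqvGen (Step p m)

/-- `Sim p m` is an equivalence relation. -/
theorem sim_equivalence {G : Type*} [Group G] (p m : ℕ) :
    Equivalence (Sim (G := G) p m) := EqvGen.is_equivalence _

/-- `Sim p m` is contained in every equivalence relation which contains the steps. -/
theorem sim_le {G : Type*} [Group G] (p m : ℕ) {r : G → G → Prop} (hr : Equivalence r)
    (h : ∀ a b, Step p m a b → r a b) : ∀ a b, Sim p m a b → r a b := by
  intro a b hab
  induction hab with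
  | rel x y hxy => exact h _ _ hxy
  | refl x => exact hr.refl x
  | symm x y _ ih => exact hr.symm ih
  | trans x y z _ _ ih1 ih2 => exact hr.trans ih1 ih2

/-- If a group has no element of order `4`, then `∼₂` for `p = 2` is conjugacy. -/
theorem isConj_of_sim {G : Type*} [Group G] (h4 : ∀ h : G, orderOf h ≠ 4) {g g' : G}
    (h : Sim 2 2 g g') : IsConj g g' := by
  refine sim_le 2 2 (r := fun a b => IsConj a b)
    ⟨fun a => IsConj.refl a, fun h => h.symm, fun h h' => h.trans h'⟩ ?_ g g' h
  intro a b hab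
  cases hab with
  | conj x => exact isConj_iff.2 ⟨x, rfl⟩
  | mul h hc hp =>
    obtain ⟨k, hk⟩ := hp
    have h2 : h ^ 2 = 1 := by
      rcases k with _ | _ | k
      · have h1 : h = 1 := by simpa using hk
        simp [h1]
      · have := pow_orderOf_eq_one h
        rw [hk] at this
        simpa using this
      · exfalso
        apply h4 (h ^ (2 ^ k))
        rw [orderOf_pow' _ (by positivity), hk]
        have hg : Nat.gcd (2 ^ (k + 1 + 1)) (2 ^ k) = 2 ^ k :=
          Nat.gcd_eq_right (pow_dvd_pow 2 (by omega))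
        rw [hg, pow_succ, pow_succ, mul_assoc, Nat.mul_div_cancel_left _ (by positivity)]
        norm_num
    have : a * h ^ 2 ^ (2 - 1) = a := by
      norm_num [h2]
    rw [this]

/-- The character computation on a Klein four-group. If `a`, `b` are commuting elements with
`a ^ 2 = b ^ 2 = 1` and a character takes the same value on `b` and on `a * b`, then
`χ 1 - χ a` is four times an integer. -/
theorem char_sub_eq {G V : Type*} [Group G] [AddCommGroup V] [Module ℂ V] [FiniteDimensional ℂ V]
    (ρ : Representation ℂ G V) (a b : G) (ha : a * a = 1) (hb : b * b = 1)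
    (hab : a * b = b * a) (hχ : ρ.character b = ρ.character (a * b)) :
    ∃ n : ℤ, ρ.character 1 - ρ.character a = (2 : ℂ) ^ 2 * n := by
  set A : Module.End ℂ V := ρ a with hA
  set B : Module.End ℂ V := ρ b with hB
  have hAA : A * A = 1 := by rw [hA, ← map_mul, ha, map_one]
  have hBB : B * B = 1 := by rw [hB, ← map_mul, hb, map_one]
  have hAB : A * B = B * A := by rw [hA, hB, ← map_mul, ← map_mul, hab]
  set P : Module.End ℂ V := (1 / 4 : ℂ) • ((1 - A) * (1 + B)) with hP
  have hcomm : (1 + B) * (1 - A) = (1 - A) * (1 + B) := by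
    simp only [add_mul, mul_add, sub_mul, mul_sub, one_mul, mul_one, hAB]
    abel
  have h1 : (1 - A) * (1 - A) = (2 : ℂ) • (1 - A) := by
    rw [two_smul, sub_mul, mul_sub, mul_sub, hAA, one_mul, one_mul, mul_one]
    abel
  have h2 : (1 + B) * (1 + B) = (2 : ℂ) • (1 + B) := by
    rw [two_smul, add_mul, mul_add, mul_add, hBB, one_mul, one_mul, mul_one]
    abel
  have hPP : P * P = P := by
    have : ((1 - A) * (1 + B)) * ((1 - A) * (1 + B)) = (4 : ℂ) • ((1 - A) * (1 + B)) := by
      calc ((1 - A) * (1 + B)) * ((1 - A) * (1 + B))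
          = (1 - A) * ((1 + B) * (1 - A)) * (1 + B) := by simp only [mul_assoc]
        _ = (1 - A) * (1 - A) * ((1 + B) * (1 + B)) := by rw [hcomm]; simp only [mul_assoc]
        _ = (4 : ℂ) • ((1 - A) * (1 + B)) := by
            rw [h1, h2, smul_mul_smul_comm]; norm_num
    rw [hP, smul_mul_smul_comm, this, smul_smul]
    norm_num
  have htr := (LinearMap.IsIdempotentElem.isProj_range P hPP).trace
  have hexp : P = (1 / 4 : ℂ) • (ρ 1 - ρ a + (ρ b - ρ (a * b))) := by
    rw [hP, map_one, map_mul]
    congr 1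
    simp only [← hA, ← hB, mul_add, sub_mul, one_mul, mul_one]
  have htr2 : LinearMap.trace ℂ V P = (1 / 4 : ℂ) * (ρ.character 1 - ρ.character a) := by
    rw [hexp, map_smul, map_add, map_sub, map_sub]
    have h3 : LinearMap.trace ℂ V (ρ b) - LinearMap.trace ℂ V (ρ (a * b)) = 0 :=
      sub_eq_zero.2 hχ
    rw [h3, add_zero]
    rfl
  refine ⟨(Module.finrank ℂ (LinearMap.range P) : ℤ), ?_⟩
  rw [htr2] at htr
  push_cast
  rw [← htr]
  ring

section PSL

variable {F : Type*} [Field F]

/-- If `M ∈ SL(2, F)` has `M ^ 4` central but `M ^ 2` not central, then `2` is a square in `F`. -/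
theorem isSquare_two_of_pow_four (M : SpecialLinearGroup (Fin 2) F)
    (h4 : M ^ 4 ∈ Subgroup.center (SpecialLinearGroup (Fin 2) F))
    (h2 : M ^ 2 ∉ Subgroup.center (SpecialLinearGroup (Fin 2) F)) : IsSquare (2 : F) := by
  rw [Matrix.SpecialLinearGroup.mem_center_iff] at h4 h2
  obtain ⟨r, -, hr⟩ := h4
  have hdet : M.1 0 0 * M.1 1 1 - M.1 0 1 * M.1 1 0 = 1 := by
    rw [← Matrix.det_fin_two]; exact M.2
  set a := M.1 0 0 with ha
  set b := M.1 0 1 with hb
  set c := M.1 1 0 with hc
  set d := M.1 1 1 with hd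
  have hM : M.1 = !![a, b; c, d] := by
    rw [ha, hb, hc, hd]; exact Matrix.eta_fin_two _
  have hM2 : (M ^ 2).1 = !![a * a + b * c, a * b + b * d; c * a + d * c, c * b + d * d] := by
    rw [Matrix.SpecialLinearGroup.coe_pow, pow_two, hM, Matrix.mul_fin_two]
  have hM4 : (M ^ 4).1 = (M ^ 2).1 * (M ^ 2).1 := by
    rw [Matrix.SpecialLinearGroup.coe_pow, Matrix.SpecialLinearGroup.coe_pow, ← pow_add]
  rw [hM4, hM2, Matrix.mul_fin_two] at hr
  have e01 := congrFun (congrFun hr 0) 1
  have e10 := congrFun (congrFun hr 1) 0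
  have e00 := congrFun (congrFun hr 0) 0
  have e11 := congrFun (congrFun hr 1) 1
  simp [Matrix.scalar_apply] at e01 e10 e00 e11
  set t := a + d with ht
  have f01 : b * (t ^ 3 - 2 * t) = 0 := by
    rw [ht]
    linear_combination -e01 + (2 * a * b + 2 * b * d) * hdet
  have f10 : c * (t ^ 3 - 2 * t) = 0 := by
    rw [ht]
    linear_combination -e10 + (2 * a * c + 2 * c * d) * hdet
  have f00 : (a - d) * (t ^ 3 - 2 * t) = 0 := by
    rw [ht]
    linear_combination e11 - e00 + (2 * a ^ 2 - 2 * d ^ 2) * hdet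
  by_cases hz : t ^ 3 - 2 * t = 0
  · have : t * (t ^ 2 - 2) = 0 := by linear_combination hz
    rcases mul_eq_zero.1 this with h | h
    · exfalso
      apply h2
      refine ⟨-1, by norm_num, ?_⟩
      rw [hM2]
      have hd' : d = -a := by linear_combination h
      ext i j
      fin_cases i <;> fin_cases j <;> simp [Matrix.scalar_apply, hd'] <;> rw [hd'] at hdet
      · linear_combination hdet
      · ring
      · ring
      · linear_combination hdet
    · exact ⟨t, by linear_combination -h⟩
  · exfalso
    have hb0 : b = 0 := (mul_eq_zero.1 f01).resolve_right hz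
    have hc0 : c = 0 := (mul_eq_zero.1 f10).resolve_right hz
    have had : a = d := sub_eq_zero.1 ((mul_eq_zero.1 f00).resolve_right hz)
    apply h2
    refine ⟨a * a, ?_, ?_⟩
    · rw [hb0, ← had] at hdet
      simp only [Fintype.card_fin]
      linear_combination (a * a + 1) * hdet
    · rw [hM2, hb0, hc0, ← had]
      ext i j
      fin_cases i <;> fin_cases j <;> simp [Matrix.scalar_apply]

/-- If `2` is not a square in `F`, then `PSL(2, F)` has no element of order `4`. -/
theorem orderOf_ne_four (h2 : ¬ IsSquare (2 : F)) (x : ProjectiveSpecialLinearGroup (Fin 2) F) :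
    orderOf x ≠ 4 := by
  intro hx
  obtain ⟨M, rfl⟩ := QuotientGroup.mk_surjective x
  apply h2
  apply isSquare_two_of_pow_four M
  · rw [← QuotientGroup.eq_one_iff, QuotientGroup.mk_pow]
    rw [← hx]; exact pow_orderOf_eq_one _
  · rw [← QuotientGroup.eq_one_iff, QuotientGroup.mk_pow]
    intro h
    have := orderOf_dvd_of_pow_eq_one h
    rw [hx] at this
    norm_num at this

/-- The Klein four-group in `PSL(2, F)` built from `a ^ 2 + b ^ 2 = -1`: two commuting
involutions `u`, `v` such that `u`, `v` and `u * v` are all conjugate. -/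
theorem exists_klein (h2 : (2 : F) ≠ 0) (a b : F) (hab : a ^ 2 + b ^ 2 = -1) :
    ∃ u v w : ProjectiveSpecialLinearGroup (Fin 2) F, u ≠ 1 ∧ u * u = 1 ∧ v * v = 1 ∧
      u * v = v * u ∧ v = w * u * w⁻¹ ∧ u * v = w * v * w⁻¹ := by
  have hneg : (-1 : SpecialLinearGroup (Fin 2) F) ∈
      Subgroup.center (SpecialLinearGroup (Fin 2) F) := by
    rw [Matrix.SpecialLinearGroup.mem_center_iff]
    refine ⟨-1, by norm_num, ?_⟩
    ext i j
    fin_cases i <;> fin_cases j <;> simp [Matrix.scalar_apply]
  obtain ⟨I, hI⟩ : ∃ I : SpecialLinearGroup (Fin 2) F, I.1 = !![0, 1; -1, 0] :=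
    ⟨⟨!![0, 1; -1, 0], by simp [Matrix.det_fin_two]⟩, rfl⟩
  obtain ⟨J, hJ⟩ : ∃ J : SpecialLinearGroup (Fin 2) F, J.1 = !![a, b; b, -a] :=
    ⟨⟨!![a, b; b, -a], by rw [Matrix.det_fin_two_of]; linear_combination -hab⟩, rfl⟩
  obtain ⟨W, hW⟩ : ∃ W : SpecialLinearGroup (Fin 2) F,
      W.1 = !![(1 + a + b) / 2, (1 + b - a) / 2; (-1 + b - a) / 2, (1 - a - b) / 2] :=
    ⟨⟨!![(1 + a + b) / 2, (1 + b - a) / 2; (-1 + b - a) / 2, (1 - a - b) / 2], by
      rw [Matrix.det_fin_two_of]; field_simp; linear_combination -2 * hab⟩, rfl⟩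
  have hone : ((-1 : SpecialLinearGroup (Fin 2) F)).1 = !![-1, 0; 0, -1] := by
    rw [Matrix.SpecialLinearGroup.coe_neg, Matrix.SpecialLinearGroup.coe_one]
    ext i j
    fin_cases i <;> fin_cases j <;> simp
  have key : ∀ {p q r s p' q' r' s' : F}, p = p' → q = q' → r = r' → s = s' →
      !![p, q; r, s] = !![p', q'; r', s'] := by
    rintro p q r s _ _ _ _ rfl rfl rfl rfl
    rfl
  have hII : I * I = -1 := by
    apply Subtype.ext
    rw [hone, Matrix.SpecialLinearGroup.coe_mul, hI, Matrix.mul_fin_two]
    apply key <;> ring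
  have hJJ : J * J = -1 := by
    apply Subtype.ext
    rw [hone, Matrix.SpecialLinearGroup.coe_mul, hJ, Matrix.mul_fin_two]
    apply key
    · linear_combination hab
    · ring
    · ring
    · linear_combination hab
  have hIJ : I * J = -1 * (J * I) := by
    apply Subtype.ext
    rw [Matrix.SpecialLinearGroup.coe_mul, Matrix.SpecialLinearGroup.coe_mul,
      Matrix.SpecialLinearGroup.coe_mul, hone, hI, hJ, Matrix.mul_fin_two, Matrix.mul_fin_two,
      Matrix.mul_fin_two]
    apply key <;> ring
  have hWI : W * I = J * W := by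
    apply Subtype.ext
    rw [Matrix.SpecialLinearGroup.coe_mul, Matrix.SpecialLinearGroup.coe_mul, hI, hJ, hW,
      Matrix.mul_fin_two, Matrix.mul_fin_two]
    apply key <;> field_simp <;>
      first
        | linear_combination hab
        | linear_combination -hab
  have hWJ : W * J = I * J * W := by
    apply Subtype.ext
    rw [Matrix.SpecialLinearGroup.coe_mul, Matrix.SpecialLinearGroup.coe_mul,
      Matrix.SpecialLinearGroup.coe_mul, hI, hJ, hW,
      Matrix.mul_fin_two, Matrix.mul_fin_two, Matrix.mul_fin_two]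
    apply key <;> field_simp
    · ring
    · ring
    · ring
    · ring
  refine ⟨QuotientGroup.mk I, QuotientGroup.mk J, QuotientGroup.mk W, ?_, ?_, ?_, ?_, ?_, ?_⟩
  · rw [Ne, QuotientGroup.eq_one_iff, Matrix.SpecialLinearGroup.mem_center_iff]
    rintro ⟨r, -, hr⟩
    have := congrFun (congrFun hr 0) 1
    rw [show (I : Matrix (Fin 2) (Fin 2) F) = !![0, 1; -1, 0] from hI] at this
    simp [Matrix.scalar_apply] at this
  · rw [← QuotientGroup.mk_mul, hII]
    exact (QuotientGroup.eq_one_iff _).2 hneg
  · rw [← QuotientGroup.mk_mul, hJJ]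
    exact (QuotientGroup.eq_one_iff _).2 hneg
  · rw [← QuotientGroup.mk_mul, ← QuotientGroup.mk_mul, hIJ, QuotientGroup.mk_mul,
      (QuotientGroup.eq_one_iff _).2 hneg, one_mul]
  · rw [eq_mul_inv_iff_mul_eq, ← QuotientGroup.mk_mul, ← QuotientGroup.mk_mul, hWI]
  · rw [eq_mul_inv_iff_mul_eq, ← QuotientGroup.mk_mul, ← QuotientGroup.mk_mul,
      ← QuotientGroup.mk_mul, hWJ]

end PSL

/-- In a finite field of odd cardinality, `-1` is a sum of two squares. -/
theorem exists_sq_add_sq_eq_neg_one (F : Type*) [Field F] [Finite F]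
    (hF : Nat.card F % 2 = 1) : ∃ a b : F, a ^ 2 + b ^ 2 = -1 := by
  classical
  have := Fintype.ofFinite F
  have hF' : Fintype.card F % 2 = 1 := by rwa [← Nat.card_eq_fintype_card]
  obtain ⟨a, b, hab⟩ := FiniteField.exists_root_sum_quadratic (R := F)
    (f := (Polynomial.X : Polynomial F) ^ 2) (g := Polynomial.X ^ 2 - Polynomial.C (-1))
    (Polynomial.degree_X_pow 2) (Polynomial.degree_X_pow_sub_C (by decide) _) hF'
  refine ⟨a, b, ?_⟩
  simp at hab
  linear_combination hab

/-- **Main result.** Let `F` be a finite field with more than four elements whose cardinality is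
`3` or `5` modulo `8`, and let `G = PSL(2, F)`, a finite simple group (of Lie type, in the odd
defining characteristic of `F`). For the prime `p = 2` and for `m = 2` there are `g, g' ∈ G` which
are not related by `∼₂`, although for every complex character `χ` of `G` one has
`χ(g) - χ(g') = 2 ^ 2 * n` with an integer `n`; in particular `χ(g) ≡ χ(g') (mod 2 ^ 2)` for all
unramified characters. -/
theorem result (F : Type) [Field F] [Finite F] (hF : 4 < Nat.card F)
    (h8 : Nat.card F % 8 = 3 ∨ Nat.card F % 8 = 5) :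
    Finite (ProjectiveSpecialLinearGroup (Fin 2) F) ∧
    IsSimpleGroup (ProjectiveSpecialLinearGroup (Fin 2) F) ∧
    ringChar F ≠ 2 ∧
    ∃ g g' : ProjectiveSpecialLinearGroup (Fin 2) F,
      ¬ Sim 2 2 g g' ∧
      ∀ (V : Type) [AddCommGroup V] [Module ℂ V] [FiniteDimensional ℂ V]
        (ρ : Representation ℂ (ProjectiveSpecialLinearGroup (Fin 2) F) V),
        ∃ n : ℤ, ρ.character g - ρ.character g' = (2 : ℂ) ^ 2 * n := by
  classical
  have := Fintype.ofFinite F
  have hcard : Fintype.card F = Nat.card F := (Nat.card_eq_fintype_card).symm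
  have h2 : ¬ IsSquare (2 : F) := by
    rw [FiniteField.isSquare_two_iff, hcard]
    omega
  have hodd : Nat.card F % 2 = 1 := by omega
  have hchar : ringChar F ≠ 2 := by
    intro h
    have := (FiniteField.even_card_iff_char_two (F := F)).1 h
    omega
  have h20 : (2 : F) ≠ 0 := by
    intro h
    exact h2 (h ▸ ⟨0, by simp⟩)
  obtain ⟨a, b, hab⟩ := exists_sq_add_sq_eq_neg_one F hodd
  obtain ⟨u, v, w, hu, huu, hvv, huv, hv, huv'⟩ := exists_klein h20 a b hab
  refine ⟨inferInstance, Matrix.ProjectiveSpecialLinearGroup.rank_two_simple hF.le, hchar, 1, u,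
    ?_, ?_⟩
  · intro hs
    have := isConj_of_sim (orderOf_ne_four h2) hs
    exact hu (isConj_one_right.1 this)
  · intro V _ _ _ ρ
    apply char_sub_eq ρ u v huu hvv huv
    rw [huv']
    exact (ρ.char_conj v w).symm

end Pool.Agent.Results.MP_cfb286_al.KleinFourPSL2
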